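import Pool.Agent.Q195.CS2

set_option autoImplicit false

/-!
# MP_c89e4d_an, Q1: every ccs Delta-point is a super Delta-point
-/

namespace Pool.Agent.Results.MP_c89e4d_an.CcsDeltaIsSuperDelta

open RCLike

variable {𝕜 : Type*} [RCLike 𝕜] {X : Type*} [NormedAddCommGroup X] [NormedSpace 𝕜 X]

/-- The slice `S(f, α)` of the closed unit ball. -/
def slice (f : StrongDual 𝕜 X) (α : ℝ) : Set X := {z | ‖z‖ ≤ 1 ∧ 1 - α < re (f z)}

variable (𝕜) in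
/-- `C` is a convex combination of slices of the closed unit ball of `X`. -/
def IsCcs (C : Set X) : Prop :=
  ∃ (n : ℕ) (l : Fin n → ℝ) (f : Fin n → StrongDual 𝕜 X) (α : Fin n → ℝ),
    (∀ i, 0 < l i) ∧ ∑ i, l i = 1 ∧ (∀ i, ‖f i‖ = 1) ∧ (∀ i, 0 < α i) ∧
    C = {x | ∃ z : Fin n → X, (∀ i, z i ∈ slice (f i) (α i)) ∧ x = ∑ i, ((l i : ℝ) : 𝕜) • z i}

variable (𝕜) in
/-- `x` is a ccs `Δ`-point: `‖x‖ = 1` and `sup_{y ∈ C} ‖x - y‖ = 2` for every convex combination of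
slices `C` of the unit ball containing `x`. -/
def IsCcsDelta (x : X) : Prop :=
  ‖x‖ = 1 ∧ ∀ C : Set X, IsCcs 𝕜 C → x ∈ C → sSup {r : ℝ | ∃ y ∈ C, r = ‖x - y‖} = 2

variable (𝕜) in
/-- `x` is a super `Δ`-point: `‖x‖ = 1` and `sup_{y ∈ W} ‖x - y‖ = 2` for every relatively weakly
open subset `W = B_X ∩ U` of the unit ball containing `x`. -/
def IsSuperDelta (x : X) : Prop :=
  ‖x‖ = 1 ∧ ∀ U : Set (WeakSpace 𝕜 X), IsOpen U → toWeakSpace 𝕜 X x ∈ U →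
    sSup {r : ℝ | ∃ y : X, ‖y‖ ≤ 1 ∧ toWeakSpace 𝕜 X y ∈ U ∧ r = ‖x - y‖} = 2

/-- In every real or complex normed space every ccs `Δ`-point is a super `Δ`-point. -/
theorem result (𝕜 : Type*) [RCLike 𝕜] (X : Type*) [NormedAddCommGroup X] [NormedSpace 𝕜 X]
    (x : X) (h : IsCcsDelta 𝕜 x) : IsSuperDelta 𝕜 x :=
  Pool.Agent.Q195.CS.ccs_super x h

end Pool.Agent.Results.MP_c89e4d_an.CcsDeltaIsSuperDelta
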